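import Pool.Agent.W535.MG.Exact

/-!
# A closed Riemannian manifold with `b₁ = 2` and exactly 18 minimal geodesics

The manifold is `T² × S³³ = (ℝ² × S³³) / ℤ²`, with universal cover `ℝ² × S³³`. The metric is of
Hedlund type: two closed minimal geodesics, one in each factor direction of the torus, and
16 heteroclinic ones, arranged so that all jumps between parallel lines have zero excess for one
of the calibrating functions `± a₀ ± a₁`.
-/

namespace Pool.Agent.Results.MP_4d76c1_gt.FinitelyManyMinimal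

open Pool.Agent.W535.MG

/-- Continuously differentiable curves in `ℝ² × ℝ^n`. -/
def IsC1 {n : ℕ} (γ : ℝ → Y n) : Prop := ContDiff ℝ 1 γ

/-- Smooth functions on `ℝ² × ℝ^n`. -/
def IsSmooth {n : ℕ} (f : Y n → ℝ) : Prop := ContDiff ℝ (⊤ : ℕ∞) f

/-- Length of the velocity of `γ` at time `t` for the field of bilinear forms `G`. -/
noncomputable def speed {n : ℕ} (G : Y n → Y n → Y n → ℝ) (γ : ℝ → Y n) (t : ℝ) : ℝ :=
  √(G (γ t) (deriv γ t) (deriv γ t))

/-- There is a piecewise `C¹` curve in `ℝ² × S^(n-1)` from `p` to `q` whose length for the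
field of bilinear forms `G` is `L`. -/
inductive HasPath {n : ℕ} (G : Y n → Y n → Y n → ℝ) : Y n → Y n → ℝ → Prop
  /-- a single `C¹` curve -/
  | arc (γ : ℝ → Y n) (a b : ℝ) (hab : a ≤ b) (hγ : IsC1 γ)
      (hmem : ∀ t ∈ Set.Icc a b, γ t ∈ Cover n) :
      HasPath G (γ a) (γ b) (∫ t in a..b, speed G γ t)
  /-- concatenation -/
  | comp (p q r : Y n) (L L' : ℝ) : HasPath G p q L → HasPath G q r L' → HasPath G p r (L + L')

/-- The Riemannian distance: infimum of the lengths of piecewise `C¹` curves in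
`ℝ² × S^(n-1)`. -/
noncomputable def rdist {n : ℕ} (G : Y n → Y n → Y n → ℝ) (p q : Y n) : ℝ :=
  sInf {L | HasPath G p q L}

/-- A smooth Riemannian metric on the closed manifold `T² × S^(n-1) = (ℝ² × S^(n-1)) / ℤ²`: a smooth
`ℤ²`-periodic field of symmetric bilinear forms on `ℝ² × ℝ^n` which is positive definite on the
tangent spaces of `ℝ² × S^(n-1)`. -/
structure TorusSphereMetric (n : ℕ) where
  /-- the bilinear form at the point `p`, evaluated at two vectors -/
  G : Y n → Y n → Y n → ℝ
  add : ∀ p u v w, G p (u + v) w = G p u w + G p v w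
  smul : ∀ p (c : ℝ) v w, G p (c • v) w = c * G p v w
  symm : ∀ p v w, G p v w = G p w v
  smooth : ∀ v w, IsSmooth fun p => G p v w
  pos : ∀ p ∈ Cover n, ∀ v : Y n, ∑ a, p.2 a * v.2 a = 0 → v ≠ 0 → 0 < G p v v
  periodic : ∀ (p v w : Y n) (g : Fin 2 → ℤ), G (p + lat g) v w = G p v w

/-- Lifts of minimal geodesics parametrised by arclength: curves in `ℝ² × S^(n-1)` which realise
the Riemannian distance between any two of their points. -/
def IsMinimalLine {n : ℕ} (M : TorusSphereMetric n) (c : ℝ → Y n) : Prop :=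
  (∀ t, c t ∈ Cover n) ∧ ∀ s t, rdist M.G (c s) (c t) = |s - t|

/-- The projections of `c` and `c'` to `T² × S^(n-1)` agree up to translation and reversal of
time. -/
def SameGeodesic {n : ℕ} (c c' : ℝ → Y n) : Prop :=
  ∃ (g : Fin 2 → ℤ) (e b : ℝ), (e = 1 ∨ e = -1) ∧ ∀ t, c t = c' (e * t + b) + lat g

lemma hasPath_iff {n : ℕ} (G : Y n → Form n) (p q : Y n) (L : ℝ) :
    HasPath (fun p v w => G p v w) p q L ↔ HasPL G p q L := by
  constructor
  · intro h
    induction h with
    | arc γ a b hab hγ hmem => exact HasPL.arc γ a b hab hγ hmem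
    | comp p q r L L' _ _ h1 h2 => exact HasPL.comp h1 h2
  · intro h
    induction h with
    | arc γ a b hab hγ hmem =>
      exact HasPath.arc (G := fun p v w => G p v w) γ a b hab hγ hmem
    | comp _ _ h1 h2 => exact HasPath.comp _ _ _ _ _ h1 h2

lemma rdist_eq {n : ℕ} (G : Y n → Form n) (p q : Y n) :
    rdist (fun p v w => G p v w) p q = riemDist G p q := by
  unfold rdist riemDist
  congr 1
  ext L
  exact hasPath_iff G p q L

/-- There is a smooth Riemannian metric on the closed manifold `T² × S³³`, whose first Betti number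
is two, with exactly 18 geometrically distinct minimal geodesics. -/
theorem result : ∃ (M : TorusSphereMetric 34) (C : Fin 18 → ℝ → Y 34),
    (∀ j, IsMinimalLine M (C j)) ∧
    (∀ j j', SameGeodesic (C j) (C j') → j = j') ∧
    ∀ c, IsMinimalLine M c → ∃ j, SameGeodesic c (C j) := by
  obtain ⟨M, C, h1, h2, h3⟩ := exists_eighteen
  refine ⟨⟨fun p v w => M.G p v w, ?_, ?_, M.symm, ?_, fun p _ v _ hv => M.pos p v hv, ?_⟩,
    C, ?_, ?_, ?_⟩
  · intro p u v w
    simp
  · intro p c v w
    simp
  · intro v w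
    exact (M.smooth.clm_apply contDiff_const).clm_apply contDiff_const
  · intro p v w g
    simp only [M.per]
  · intro j
    refine ⟨(h1 j).1, fun s t => ?_⟩
    exact (rdist_eq M.G _ _).trans ((h1 j).2 s t)
  · rintro j j' ⟨g, e, b, _, h⟩
    exact h2 j j' 0 (e * 0 + b) g (h 0)
  · rintro c ⟨hc1, hc2⟩
    obtain ⟨j, g, e, b, he, h⟩ := h3 c hc1 (fun s t => (rdist_eq M.G _ _).symm.trans (hc2 s t))
    exact ⟨j, g, e, b, he, h⟩

end Pool.Agent.Results.MP_4d76c1_gt.FinitelyManyMinimal
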